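import Pool.Agent.Q319.DR.Own

/-!
# Sparse exceptional sets and the dilates of arbitrary sequences by almost all real numbers
-/

set_option autoImplicit false

namespace Pool.Agent.Q56.DR

open Finset MeasureTheory Filter
open Pool.Agent.Q319.DR (Sparse Hit hit_vol ev_log ev_pow)

open Classical in
/-- the number of the `k ≤ K` for which the window around `α b k` contains a bad number -/
noncomputable def cnt (bad : ℕ → ℕ → Prop) (A : ℕ) (b : ℕ → ℕ) (α : ℝ) (K : ℕ) : ℕ :=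
  ((Icc 1 K).filter (fun k : ℕ => ∃ q : ℕ, |(q : ℝ) - α * b k| ≤ Real.log (b k) ^ A ∧ bad (b k) q)).card

lemma hit_meas (bad : ℕ → ℕ → Prop) (D N : ℕ) (h : ℝ) : MeasurableSet (Hit bad D N h) := by
  have e : Hit bad D N h = Set.Ioc (0 : ℝ) D ∩ ⋃ q : ℕ, ({α : ℝ | |(q : ℝ) - α * N| ≤ h} ∩ {_α : ℝ | bad N q}) := by
    ext α
    simp only [Hit, Set.mem_setOf_eq, Set.mem_inter_iff, Set.mem_Ioc, Set.mem_iUnion]
    tauto
  rw [e]
  refine measurableSet_Ioc.inter (MeasurableSet.iUnion fun q => ?_)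
  refine MeasurableSet.inter ?_ (MeasurableSet.const _)
  exact measurableSet_le (by fun_prop) measurable_const

lemma hit_triv (bad : ℕ → ℕ → Prop) (D N : ℕ) (h : ℝ) : volume (Hit bad D N h) ≤ ENNReal.ofReal D := by
  have hsub : Hit bad D N h ⊆ Set.Ioc (0 : ℝ) D := fun α hα => ⟨hα.1, hα.2.1⟩
  refine (measure_mono hsub).trans ?_
  rw [Real.volume_Ioc, sub_zero]

/-- Markov's inequality for the number of exceptional `k` -/
lemma markov (bad : ℕ → ℕ → Prop) (A D : ℕ) (b : ℕ → ℕ) (K : ℕ) (T S : ℝ) (hT : 0 < T) (hS : 0 ≤ S)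
    (v : ℕ → ℝ) (hv : ∀ k, 0 ≤ v k) (hvol : ∀ k ∈ Icc 1 K, volume (Hit bad D (b k) (Real.log (b k) ^ A)) ≤ ENNReal.ofReal (v k))
    (hsum : ∑ k ∈ Icc 1 K, v k ≤ S) :
    volume {α : ℝ | 0 < α ∧ α ≤ D ∧ T < cnt bad A b α K} ≤ ENNReal.ofReal (S / T) := by
  classical
  set F : ℝ → ENNReal := fun α => ∑ k ∈ Icc 1 K, (Hit bad D (b k) (Real.log (b k) ^ A)).indicator (fun _ => (1 : ENNReal)) α with hF
  have hFm : Measurable F := by
    apply Finset.measurable_sum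
    intro k _
    exact measurable_const.indicator (hit_meas _ _ _ _)
  have hint : ∫⁻ α, F α ≤ ENNReal.ofReal S := by
    rw [hF, lintegral_finsetSum _ (fun k _ => measurable_const.indicator (hit_meas _ _ _ _))]
    refine le_trans (Finset.sum_le_sum (g := fun k => ENNReal.ofReal (v k)) fun k hk => ?_) ?_
    · rw [lintegral_indicator (hit_meas _ _ _ _), setLIntegral_const, one_mul]
      exact hvol k hk
    · rw [← ENNReal.ofReal_sum_of_nonneg (fun k _ => hv k)]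
      exact ENNReal.ofReal_le_ofReal hsum
  have hsub : {α : ℝ | 0 < α ∧ α ≤ D ∧ T < cnt bad A b α K} ⊆ {α : ℝ | ENNReal.ofReal T ≤ F α} := by
    rintro α ⟨h1, h2, h3⟩
    rw [Set.mem_setOf_eq]
    have h4 : F α = ((cnt bad A b α K : ℕ) : ENNReal) := by
      rw [hF]
      simp only
      unfold cnt
      rw [card_filter, Nat.cast_sum]
      apply Finset.sum_congr rfl
      intro k _
      by_cases hk : ∃ q : ℕ, |(q : ℝ) - α * b k| ≤ Real.log (b k) ^ A ∧ bad (b k) q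
      · rw [if_pos hk, Set.indicator_of_mem (show α ∈ Hit bad D (b k) (Real.log (b k) ^ A) from ⟨h1, h2, hk⟩)]
        simp
      · rw [if_neg hk, Set.indicator_of_notMem (fun hh => hk hh.2.2)]
        simp
    rw [h4, ← ENNReal.ofReal_natCast]
    exact ENNReal.ofReal_le_ofReal h3.le
  refine (measure_mono hsub).trans ?_
  refine (meas_ge_le_lintegral_div hFm.aemeasurable (by simpa using hT) ENNReal.ofReal_ne_top).trans ?_
  rw [ENNReal.ofReal_div_of_pos hT]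
  gcongr

lemma cnt_mono (bad : ℕ → ℕ → Prop) (A : ℕ) (b : ℕ → ℕ) (α : ℝ) {K K' : ℕ} (h : K ≤ K') :
    cnt bad A b α K ≤ cnt bad A b α K' := by
  classical
  unfold cnt
  exact card_le_card (filter_subset_filter _ (Icc_subset_Icc le_rfl h))

/-- **Dilates of arbitrary sequences.** -/
theorem seq_few (bad : ℕ → ℕ → Prop) (hbad : Sparse bad) (A U : ℕ) (b : ℕ → ℕ) (c : ℝ) (hc : 0 < c)
    (hb : ∀ᶠ k : ℕ in atTop, (k : ℝ) ^ c ≤ b k) :
    ∀ᵐ α : ℝ, 0 < α → ∀ᶠ K : ℕ in atTop, (cnt bad A b α K : ℝ) ≤ K / Real.log K ^ U := by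
  classical
  obtain ⟨W, hW⟩ : ∃ W : ℕ, W = U + 4 := ⟨_, rfl⟩
  -- one dyadic scale
  have hone : ∀ D : ℕ, ∀ᶠ K : ℕ in atTop, volume {α : ℝ | 0 < α ∧ α ≤ D ∧ (K : ℝ) / Real.log K ^ (U + 1) < cnt bad A b α K} ≤
      ENNReal.ofReal (1 / Real.log K ^ 2) := by
    intro D
    obtain ⟨N₀, hN₀⟩ := hit_vol bad hbad D (A + W)
    have hbt : Tendsto (fun k => ((b k : ℕ) : ℝ)) atTop atTop :=
      tendsto_atTop_mono' _ hb ((tendsto_rpow_atTop hc).comp tendsto_natCast_atTop_atTop)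
    have e1 : ∀ᶠ k : ℕ in atTop, (N₀ : ℝ) ≤ b k := hbt.eventually_ge_atTop _
    have e2 : ∀ᶠ k : ℕ in atTop, 1 * Real.log (b k) ^ A ≤ ((b k : ℕ) : ℝ) ^ (1 : ℝ) :=
      hbt.eventually (ev_pow 1 one_pos A 1)
    have e3 : ∀ᶠ k : ℕ in atTop, 1 ≤ Real.log (b k) := hbt.eventually (ev_log 1)
    obtain ⟨k₀, hk₀⟩ := (e1.and (e2.and (e3.and hb))).exists_forall_of_atTop
    have f1 : ∀ᶠ K : ℝ in atTop, 2 * (D + 1) * Real.log K ^ (W - 1) ≤ K ^ (1 / 2 : ℝ) := ev_pow (1 / 2) (by norm_num) _ _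
    have f2 : ∀ᶠ K : ℝ in atTop, 8 * (2 / c) ^ W ≤ Real.log K := ev_log _
    have f3 : ∀ᶠ K : ℝ in atTop, (k₀ : ℝ) + 1 ≤ K ^ (1 / 2 : ℝ) :=
      (tendsto_rpow_atTop (show (0 : ℝ) < 1 / 2 by norm_num)).eventually_ge_atTop _
    have f4 : ∀ᶠ K : ℝ in atTop, 1 ≤ Real.log K := ev_log _
    have f5 := tendsto_natCast_atTop_atTop.eventually (f1.and (f2.and (f3.and f4)))
    filter_upwards [f5, eventually_ge_atTop 1] with K hK hK1
    obtain ⟨g1, g2, g3, g4⟩ := hK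
    have hKr : (1 : ℝ) ≤ K := by exact_mod_cast hK1
    have hK0 : (0 : ℝ) < K := by linarith
    obtain ⟨L, hL⟩ : ∃ L, L = Real.log (K : ℝ) := ⟨_, rfl⟩
    rw [← hL] at g1 g2 g4 ⊢
    have hL0 : 0 < L := by linarith
    set v : ℕ → ℝ := fun k => if (k : ℝ) < (K : ℝ) ^ (1 / 2 : ℝ) then (D : ℝ) else 4 * (2 / c) ^ W / L ^ W with hv
    have hv0 : ∀ k, 0 ≤ v k := by
      intro k
      rw [hv]
      simp only
      split_ifs
      · positivity
      · positivity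
    have hss : (K : ℝ) ^ (1 / 2 : ℝ) * (K : ℝ) ^ (1 / 2 : ℝ) = K := by
      rw [← Real.rpow_add hK0]
      norm_num
    have hsq0 : 0 < (K : ℝ) ^ (1 / 2 : ℝ) := by positivity
    have hmk := markov bad A D b K (K / L ^ (U + 1)) (K / L ^ (U + 3)) (by positivity) (by positivity) v hv0 (by
      intro k hk
      rw [mem_Icc] at hk
      rw [hv]
      simp only
      split_ifs with hlt
      · exact hit_triv _ _ _ _
      · rw [not_lt] at hlt
        have hkk : k₀ ≤ k := by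
          have : (k₀ : ℝ) ≤ k := by linarith
          exact_mod_cast this
        obtain ⟨a1, a2, a3, a4⟩ := hk₀ k hkk
        rw [one_mul, Real.rpow_one] at a2
        refine (hN₀ (b k) _ (by exact_mod_cast a1) (one_le_pow₀ a3) a2).trans (ENNReal.ofReal_le_ofReal ?_)
        have hl : c / 2 * L ≤ Real.log (b k) := by
          have h1 : (K : ℝ) ^ (c / 2) ≤ b k := by
            calc (K : ℝ) ^ (c / 2) = ((K : ℝ) ^ (1 / 2 : ℝ)) ^ c := by
                  rw [← Real.rpow_mul hK0.le]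
                  congr 1
                  ring
              _ ≤ (k : ℝ) ^ c := Real.rpow_le_rpow hsq0.le hlt hc.le
              _ ≤ b k := a4
          have h2 := Real.log_le_log (by positivity) h1
          rwa [Real.log_rpow hK0, ← hL] at h2
        have hlb0 : 0 < Real.log (b k) := by linarith
        have h3 : 4 * Real.log (b k) ^ A / Real.log (b k) ^ (A + W) = 4 / Real.log (b k) ^ W := by
          rw [pow_add]
          field_simp
        rw [h3]
        have h4 : (c / 2 * L) ^ W ≤ Real.log (b k) ^ W := pow_le_pow_left₀ (by positivity) hl _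
        calc 4 / Real.log (b k) ^ W ≤ 4 / (c / 2 * L) ^ W := by
              apply div_le_div_of_nonneg_left (by norm_num) (by positivity) h4
          _ = 4 * (2 / c) ^ W / L ^ W := by
              rw [mul_pow, div_pow, div_pow]
              field_simp) (by
      have h1 : ∑ k ∈ Icc 1 K, v k ≤ D * (K : ℝ) ^ (1 / 2 : ℝ) + K * (4 * (2 / c) ^ W / L ^ W) := by
        rw [hv]
        simp only
        rw [Finset.sum_ite, sum_const, sum_const, nsmul_eq_mul, nsmul_eq_mul]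
        have c1 : (((Icc 1 K).filter (fun k : ℕ => (k : ℝ) < (K : ℝ) ^ (1 / 2 : ℝ))).card : ℝ) ≤ (K : ℝ) ^ (1 / 2 : ℝ) := by
          have h2 : (Icc 1 K).filter (fun k : ℕ => (k : ℝ) < (K : ℝ) ^ (1 / 2 : ℝ)) ⊆ Icc 1 ⌊(K : ℝ) ^ (1 / 2 : ℝ)⌋₊ := by
            intro k hk
            rw [mem_filter, mem_Icc] at hk
            rw [mem_Icc]
            exact ⟨hk.1.1, Nat.le_floor hk.2.le⟩
          have h3 := card_le_card h2
          rw [Nat.card_Icc, Nat.add_sub_cancel] at h3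
          calc (((Icc 1 K).filter (fun k : ℕ => (k : ℝ) < (K : ℝ) ^ (1 / 2 : ℝ))).card : ℝ) ≤ (⌊(K : ℝ) ^ (1 / 2 : ℝ)⌋₊ : ℕ) := by
                exact_mod_cast h3
            _ ≤ _ := Nat.floor_le hsq0.le
        have c2 : (((Icc 1 K).filter (fun k : ℕ => ¬ (k : ℝ) < (K : ℝ) ^ (1 / 2 : ℝ))).card : ℝ) ≤ K := by
          have h3 := card_filter_le (Icc 1 K) (fun k : ℕ => ¬ (k : ℝ) < (K : ℝ) ^ (1 / 2 : ℝ))
          rw [Nat.card_Icc, Nat.add_sub_cancel] at h3
          exact_mod_cast h3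
        have hD0 : (0 : ℝ) ≤ D := Nat.cast_nonneg _
        have hq : 0 ≤ 4 * (2 / c) ^ W / L ^ W := by positivity
        nlinarith [mul_le_mul_of_nonneg_right c1 hD0, mul_le_mul_of_nonneg_right c2 hq]
      refine h1.trans ?_
      have hW1 : W - 1 = U + 3 := by omega
      rw [hW1] at g1
      have hD0 : (0 : ℝ) ≤ D := Nat.cast_nonneg _
      have p1 : D * (K : ℝ) ^ (1 / 2 : ℝ) ≤ 1 / 2 * (K / L ^ (U + 3)) := by
        rw [← mul_div_assoc, le_div_iff₀ (by positivity)]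
        have : D * L ^ (U + 3) ≤ 1 / 2 * (K : ℝ) ^ (1 / 2 : ℝ) := by
          have h5 : 0 ≤ L ^ (U + 3) := by positivity
          nlinarith
        calc D * (K : ℝ) ^ (1 / 2 : ℝ) * L ^ (U + 3) = (D * L ^ (U + 3)) * (K : ℝ) ^ (1 / 2 : ℝ) := by ring
          _ ≤ (1 / 2 * (K : ℝ) ^ (1 / 2 : ℝ)) * (K : ℝ) ^ (1 / 2 : ℝ) := mul_le_mul_of_nonneg_right this hsq0.le
          _ = 1 / 2 * K := by rw [mul_assoc, hss]
      have p2 : K * (4 * (2 / c) ^ W / L ^ W) ≤ 1 / 2 * (K / L ^ (U + 3)) := by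
        have h6 : L ^ W = L ^ (U + 3) * L := by rw [hW, ← pow_succ]
        rw [h6]
        have h7 : 4 * (2 / c) ^ W / (L ^ (U + 3) * L) ≤ 1 / 2 / L ^ (U + 3) := by
          rw [div_le_div_iff₀ (by positivity) (by positivity)]
          have h8 : 0 < L ^ (U + 3) := by positivity
          nlinarith
        calc K * (4 * (2 / c) ^ W / (L ^ (U + 3) * L)) ≤ K * (1 / 2 / L ^ (U + 3)) := mul_le_mul_of_nonneg_left h7 hK0.le
          _ = _ := by ring
      linarith)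
    refine hmk.trans (ENNReal.ofReal_le_ofReal (le_of_eq ?_))
    have h9 : L ^ (U + 3) = L ^ (U + 1) * L ^ 2 := by rw [← pow_add]
    rw [h9]
    field_simp
  -- Borel and Cantelli
  have hkey : ∀ D : ℕ, ∀ᵐ α : ℝ, ∀ᶠ j : ℕ in atTop,
      α ∉ {α : ℝ | 0 < α ∧ α ≤ D ∧ ((2 ^ j : ℕ) : ℝ) / Real.log ((2 ^ j : ℕ) : ℝ) ^ (U + 1) < cnt bad A b α (2 ^ j)} := by
    intro D
    have h2t : Tendsto (fun j : ℕ => 2 ^ j) atTop atTop := tendsto_pow_atTop_atTop_of_one_lt (by norm_num)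
    have hev := h2t.eventually (hone D)
    obtain ⟨J, hJ⟩ := hev.exists_forall_of_atTop
    have hsum : ∑' j : ℕ, volume {α : ℝ | 0 < α ∧ α ≤ D ∧ ((2 ^ (j + (J + 1)) : ℕ) : ℝ) /
        Real.log ((2 ^ (j + (J + 1)) : ℕ) : ℝ) ^ (U + 1) < cnt bad A b α (2 ^ (j + (J + 1)))} ≠ ⊤ := by
      have hs : Summable (fun j : ℕ => (1 / Real.log 2 ^ 2) * (1 / ((j + (J + 1) : ℕ) : ℝ) ^ 2)) := by
        apply Summable.mul_left
        exact (summable_nat_add_iff (J + 1)).2 (Real.summable_one_div_nat_pow.2 (by norm_num))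
      refine ne_top_of_le_ne_top ?_ (ENNReal.tsum_le_tsum (fun j => hJ (j + (J + 1)) (by omega)))
      have h3 : ∀ j : ℕ, 1 / Real.log ((2 ^ (j + (J + 1)) : ℕ) : ℝ) ^ 2 =
          (1 / Real.log 2 ^ 2) * (1 / ((j + (J + 1) : ℕ) : ℝ) ^ 2) := by
        intro j
        have h4 : Real.log ((2 ^ (j + (J + 1)) : ℕ) : ℝ) = ((j + (J + 1) : ℕ) : ℝ) * Real.log 2 := by
          rw [Nat.cast_pow, Real.log_pow]
          norm_num
        rw [h4, mul_pow, one_div, mul_inv]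
        ring
      simp_rw [h3]
      exact hs.tsum_ofReal_ne_top
    have h5 := ae_eventually_notMem hsum
    filter_upwards [h5] with α hα
    obtain ⟨I, hI⟩ := hα.exists_forall_of_atTop
    refine eventually_atTop.2 ⟨I + (J + 1), fun k hk => ?_⟩
    have h6 := hI (k - (J + 1)) (by omega)
    rwa [Nat.sub_add_cancel (by omega)] at h6
  have hall := ae_all_iff.2 hkey
  filter_upwards [hall] with α hα hα0
  obtain ⟨n, hn⟩ := exists_nat_ge α
  obtain ⟨J, hJ⟩ := (hα n).exists_forall_of_atTop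
  have f6 : ∀ᶠ K : ℕ in atTop, 2 ≤ Real.log (K : ℝ) := tendsto_natCast_atTop_atTop.eventually (ev_log 2)
  filter_upwards [f6, eventually_ge_atTop (2 ^ J)] with K hK hKJ
  have hK1 : 1 ≤ K := le_trans (Nat.one_le_two_pow) hKJ
  have hK0 : (0 : ℝ) < K := by exact_mod_cast hK1
  obtain ⟨j, hj⟩ : ∃ j, j = Nat.log 2 K + 1 := ⟨_, rfl⟩
  have hj1 : K < 2 ^ j := by rw [hj]; exact Nat.lt_pow_succ_log_self (by norm_num) K
  have hj2 : 2 ^ j ≤ 2 * K := by
    rw [hj, pow_succ, mul_comm]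
    exact Nat.mul_le_mul_left 2 (Nat.pow_log_le_self 2 (by omega))
  have hjJ : J ≤ j := by
    have h1 : 2 ^ J < 2 ^ j := lt_of_le_of_lt hKJ hj1
    exact ((Nat.pow_lt_pow_iff_right (by norm_num)).1 h1).le
  have h7 := hJ j hjJ
  have h8 : (cnt bad A b α (2 ^ j) : ℝ) ≤ ((2 ^ j : ℕ) : ℝ) / Real.log ((2 ^ j : ℕ) : ℝ) ^ (U + 1) := by
    by_contra hcon
    exact h7 ⟨hα0, hn, not_le.1 hcon⟩
  have h9 : (cnt bad A b α K : ℝ) ≤ cnt bad A b α (2 ^ j) := by exact_mod_cast cnt_mono bad A b α hj1.le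
  have hlj : Real.log K ≤ Real.log ((2 ^ j : ℕ) : ℝ) := Real.log_le_log hK0 (by exact_mod_cast hj1.le)
  have hlK : 0 < Real.log (K : ℝ) := by linarith
  calc (cnt bad A b α K : ℝ) ≤ ((2 ^ j : ℕ) : ℝ) / Real.log ((2 ^ j : ℕ) : ℝ) ^ (U + 1) := h9.trans h8
    _ ≤ ((2 * K : ℕ) : ℝ) / Real.log (K : ℝ) ^ (U + 1) := by
        apply div_le_div₀ (Nat.cast_nonneg _) (by exact_mod_cast hj2) (by positivity)
        exact pow_le_pow_left₀ hlK.le hlj _
    _ ≤ K / Real.log K ^ U := by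
        rw [div_le_div_iff₀ (by positivity) (by positivity), pow_succ]
        push_cast
        have h10 : 0 ≤ K * Real.log (K : ℝ) ^ U := by positivity
        nlinarith

end Pool.Agent.Q56.DR
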